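import Pool.Agent.H30.FQ.Final

set_option autoImplicit false

/-!
# The Lang-Vojta question for the orbifold `(P^2; ∞, ∞, 4, 4)` and the surfaces over it

Let `X = Spec A` be an affine surface with algebraically independent regular functions `f`, `g` such
that `f + g - 1` is a unit. Consider the morphisms `φ : C → X` from affine curves such that all
zeros of `φ f` and `φ g` have order at least `4` (all the morphisms, if `f` and `g` are locally
products of fourth and higher powers, for instance for the complement of the curve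
`x ^ m + y ^ n = 1`, `m, n ≥ 4`, in the affine plane). Then Q1 holds for these morphisms, with a
linear function `β`; the degree of `(f, g)` is at most `653 χ` outside five explicit curves, and
none of these curves can be omitted.
-/

namespace Pool.Agent.H30.Kept.BorderlineOrbifold

open SC Pool.Agent.H27.LV Pool.Agent.H30.FQ

theorem result :
    (∀ (k : Type) [Field k] [IsAlgClosed k] [CharZero k] (A : Type) [CommRing A] [IsDomain A]
      [Algebra k A] (n : ℕ) (x : Fin n → A), Algebra.adjoin k (Set.range x) = ⊤ →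
      Algebra.trdeg k A = 2 → ∀ f g : A, AlgebraicIndependent k ![f, g] → IsUnit (f + g - 1) →
      ∃ (N : ℕ) (ψ : A), ψ ≠ 0 ∧
      ∀ (K : Type) [Field K] [Algebra k K] [Algebra.EssFiniteType k K], Algebra.trdeg k K = 1 →
      ∀ (S : Finset (DV k K)) (φ : A →ₐ[k] K), (∀ v, v ∉ S → ∀ a, 0 ≤ v.ord (φ a)) →
      Mult4 S φ f → Mult4 S φ g → ∀ D : Derivation k K K, D ≠ 0 →
      (φ ψ ≠ 0 → (∃ a, φ a ∉ Set.range (algebraMap k K)) →
        (deg k (fun i => φ (x i)) : ℤ) ≤ N * (canDeg D + S.card)) ∧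
      (φ f ≠ 0 → φ g ≠ 0 → φ f ≠ 1 → φ g ≠ 1 → φ f + φ g ≠ 0 → ¬ W1 (φ f) (φ g) →
        ¬ W0 k (φ f) (φ g) →
        ¬ (φ f ∈ Set.range (algebraMap k K) ∧ φ g ∈ Set.range (algebraMap k K)) →
        (deg k ![φ f, φ g] : ℤ) ≤ 653 * (canDeg D + S.card))) ∧
    ∀ (k : Type) [Field k] [IsAlgClosed k] [CharZero k] (N : ℕ),
      ∃ (K : Type) (_ : Field K) (_ : Algebra k K) (_ : Algebra.EssFiniteType k K)
        (S : Finset (DV k K)) (D : Derivation k K K), Algebra.trdeg k K = 1 ∧ D ≠ 0 ∧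
        canDeg D + S.card = 0 ∧
        (∃ X Y : K, Orb S X Y ∧ N ≤ deg k ![X, Y] ∧ X = 1) ∧
        (∃ X Y : K, Orb S X Y ∧ N ≤ deg k ![X, Y] ∧ Y = 1) ∧
        (∃ X Y : K, Orb S X Y ∧ N ≤ deg k ![X, Y] ∧ X + Y = 0) ∧
        (∃ X Y : K, Orb S X Y ∧ N ≤ deg k ![X, Y] ∧ W1 X Y) ∧
        (∃ X Y : K, Orb S X Y ∧ N ≤ deg k ![X, Y] ∧ W0 k X Y) :=
  ⟨tSRG, shp⟩

end Pool.Agent.H30.Kept.BorderlineOrbifold
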