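import Pool.Agent.H30.AV.All

set_option autoImplicit false

/-!
# The Lang-Vojta question for covers of affine varieties branched along general sections

Let `Y` be an affine variety of dimension at most `r` in affine `n`-space (equations `Q`, any
singularities, `DimLE Q r`), `e ≥ 1`, and let `X` be the cover of `Y` with the equations
`x_i ^ μ_i = a_i (y)`, `i = 1, …, q`, `μ_i ≥ 2`, `a_i` polynomials of degree `e`. If
`q ≥ 32 r ^ 4` and the `a_i` are general, then Q1 holds for `X` with the exceptional set
`∏ x_i = 0` and a linear function `β`. The number `32 r ^ 4` depends on the dimension of `Y` only,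
not on `Y`, its embedding and `e`.

Outline of the proof. The curves in `Y` are lifted to the cone over the projective tangent space:
the matrices `z_i D y_j`, `z = (1, y)`. Noether normalisation of a closed subset of this cone,
starting with the two linear forms `T1`, `T2` of a generic hyperplane which vanish on the tangent
directions of the hyperplane section, bounds the number of conditions for a zero of order `w` there
by the right multiple of the number of forms; so there is a form of small degree with zeros of
high order along the tangent directions of `q - 2 r` generic hyperplane sections. It is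
specialised to the given general hyperplanes; the locus where this fails does not depend on them,
and is treated by noetherian induction.
-/

namespace Pool.Agent.H30.Kept.GeneralSectionCovers

open MvPolynomial SC Pool.Agent.H27.LV Pool.Agent.H30.AV

theorem result : ∀ (k : Type) [Field k] [IsAlgClosed k] [CharZero k] (n r e q : ℕ)
    (Q : Set (MvPolynomial (Fin n) k)), 1 ≤ r → 1 ≤ e → DimLE Q r → 32 * r ^ 4 ≤ q →
    ∃ (Δ : MvPolynomial (Fin q × Pol n e) k) (B : ℕ), Δ ≠ 0 ∧
      ∀ a : Fin q → Pol n e → k, eval (fun p => a p.1 p.2) Δ ≠ 0 →
      ∀ μ : Fin q → ℕ, (∀ i, 2 ≤ μ i) →
        DegreeBound k (polyEqs Q a μ) (∏ i, X (Sum.inr i)) (fun χ => B * χ) :=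
  tVER

end Pool.Agent.H30.Kept.GeneralSectionCovers
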