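import Pool.Agent.H48.FR.All
import Pool.Agent.H48.FR.St
import Pool.Agent.H58.JU.Asm
import Pool.Agent.H58.JU.Final

/-!
Kept: earlier form of MP_6a7a6f_gt.QuaternionBound (not a hand-in). Its claim text was:
Proves: Let c = cos(pi/(2m+1)), rad m = (1/4) arccos(-c/(1+c)); rad 1 = arccos(-1/3)/4. (a) If n, m >= 1, 4n < binomial(2m+4, 3), eps > rad m, the Kuratowski map of HP^n is null-homotopic in the open eps-neighbourhood U_eps of its image; so FillRad(HP^n) <= rad m < pi/6 (degree 4n); diameter pi/2. (b) For all n >= 1 and 0 < eps < arccos(-1/5)/4 there is a map r: U_eps -> HP^n with r o Kuratowski map homotopic to the identity; and FillRad(HP^n) >= arccos(-1/5)/4 = .4430.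
Definitions: PF: the facts on real part, conjugation and norm used for C and H. hp, nrm: Hermitian form and norm on K^(n+1). PP K n: Mathlib's Projectivization of K^(n+1), distance arccos(|hp x y|/(|x||y|)). HPn: the case K = H. kur: Kuratowski map m -> dist m . into lp(infinity). UE: open eps-neighbourhood of its image, as a space. kf, kc: kur as a (continuous) map into it. HZ d: d-th singular homology, coefficients Z. Kills d f: f induces zero on it. FillR M d: infimum of the eps > 0 such that kc kills degree d.
Relation: Partial answer to Q1: .4430 <= FillRad(HP^n) for all n, and <= rad 1 = .4777 for n <= 4 (diam/3 = .5236), same coefficients Z; no exact value for n >= 2. Known (Katz 1983): FillRad <= diam/3. (b) is the value of the projective line (S^4 of radius 1/2); such lower bounds may be in Katz 1983 (we cannot check); the proof by a theorem of Jung type (for CP^n: Katz 1985) and (a) are ours.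

MP_6a7a6f_gt: upper and lower bounds for the filling radius of the quaternionic projective spaces.
-/

namespace Pool.Agent.H30.Kept.QuaternionBoundOld

open Pool.Agent.H48.FR
open scoped Quaternion

/-- Let `n, m ≥ 1` and `4 n < binomial (2 m + 4) 3`. For `ε > rad m` the Kuratowski map of the
quaternionic projective space `HPn n` is null-homotopic in the open `ε`-neighbourhood of its
image. So its filling radius is at most `rad m`, which is smaller than a third of the diameter
`π / 2`. For `n ≤ 4` one can take `m = 1`, and `rad 1 = arccos (- 1 / 3) / 4`.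

On the other side, for each `n ≥ 1` and `ε < arccos (- 1 / 5) / 4` the Kuratowski map into the
open `ε`-neighbourhood has a left homotopy inverse, and the filling radius of `HPn n` is at least
`arccos (- 1 / 5) / 4`. -/
theorem result : rad 1 = Real.arccos (-(1 / 3)) / 4 ∧
    (∀ n m : ℕ, 1 ≤ n → 1 ≤ m → 4 * n < Nat.choose (2 * m + 4) 3 →
      (∀ (ε : ℝ) (hε : 0 < ε), rad m < ε → (kc (HPn n) ε hε).Nullhomotopic) ∧
      FillR (HPn n) (4 * n) ≤ rad m ∧ rad m < Real.pi / 6 ∧
      Metric.diam (Set.univ : Set (HPn n)) = Real.pi / 2) ∧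
    ∀ n : ℕ, 1 ≤ n →
      (∀ (ε : ℝ) (hε : 0 < ε), ε < Real.arccos (-(1 / 5)) / 4 →
        ∃ r : C(UE (HPn n) ε, HPn n),
          (r.comp (kc (HPn n) ε hε)).Homotopic (ContinuousMap.id (HPn n))) ∧
      Real.arccos (-(1 / 5)) / 4 ≤ FillR (HPn n) (4 * n) := by
  refine ⟨rad_one, fun n m hn hm h => ?_, fun n hn => ?_⟩
  · have h4 : Module.finrank ℝ ℍ[ℝ] = 4 := Quaternion.finrank_eq_four
    have hdim : Module.finrank ℝ ℍ[ℝ] * n <
        Nat.multichoose (Module.finrank ℝ ℍ[ℝ]) (2 * m + 1) := by
      rw [h4, Nat.multichoose_eq]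
      have e : 4 + (2 * m + 1) - 1 = 2 * m + 4 := by omega
      rw [e]
      have e2 : Nat.choose (2 * m + 4) (2 * m + 1) = Nat.choose (2 * m + 4) 3 :=
        Nat.choose_symm_of_eq_add (by omega)
      rw [e2]
      exact h
    have h1 : FillRad (PP ℍ[ℝ] n) (4 * n) ≤ rad m := fillRad_le_rad hn hm (by omega) hdim
    exact ⟨fun ε hε hlt => nullhomotopic (𝕜 := ℍ[ℝ]) hn hm hdim hε hlt, h1,
      (rad_pos_lt hm).2, diam_PP (𝕜 := ℍ[ℝ]) hn⟩
  · exact Pool.Agent.H58.JU.quaternion Pool.Agent.H58.JU.A.aUMX Pool.Agent.H58.JU.A.aRET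
      Pool.Agent.H58.JU.A.aFIL Pool.Agent.H58.JU.A.aHPL Pool.Agent.H58.JU.A.aHPV n hn

end Pool.Agent.H30.Kept.QuaternionBoundOld
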