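import Pool.Agent.H30.AX.All

set_option autoImplicit false

/-!
# The Lang-Vojta question for varieties ramified over general sections

Let `Y` be a projective variety of dimension at most `r` in projective `n`-space (forms `Q`, any
singularities, `DimLE Q (r + 1)`), let `e ≥ 1`, `m ≥ 2` and let `q` satisfy
`(m - 1)^2 (q - 2 r) ≥ 2 m^2 ((2 r - 1) (2 r - 2) + 1)` (for `m = 2`: `q ≥ 32 r^2 - 46 r + 24`).
For general forms `a_1, …, a_q` of degree `e`, Q1 holds, with a linear function `β`, for EVERY
irreducible affine variety `X` which has a generically finite morphism `φ` to `Y` such that the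
pullbacks of the divisors `a_i = 0` are divisible by `m`.

`X` has the coordinates `σ` and the prime ideal `P`; `φ` is given by polynomials `φ_j` with the
ideal `I`, the ideal `J` of the pullback of `a_i = 0` is given by `(a_i (φ)) = I ^ e J`, and it is
in the `m`-th power of its radical (`PullDiv`). If `X` is smooth, this says that all multiplicities
of the pullback are at least `m`. Examples: affine open parts of covers of `Y` which are ramified
of order at least `m` over the divisors `a_i = 0`, open parts of `Y` where the `a_i` have no
zeros, everything which is finite over such varieties. Every morphism from an affine variety to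
projective space is given by polynomials `φ_j` in this way (with an invertible ideal `I`).

Outline of the proof. The curves in `Y` are lifted to the lines which touch them: the matrices
`W_ij = z_i D z_j - z_j D z_i`. The hyperplane `a` contains the line iff `W a = 0`. Noether
normalisation of a closed subset of the variety of tangent lines, starting with the pairs of
linear forms `b W a`, `b' W a` of generic hyperplanes, bounds the number of conditions for a zero of
order `w` there by the right multiple of the number of forms. So there is a form of small degree
with zeros of high order along `q - 2 r` generic hyperplanes, simultaneously (products of powers of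
the ideals). It is specialised to the given general hyperplanes; the locus where this fails does
not depend on them, and is treated by noetherian induction.
-/

namespace Pool.Agent.H30.Kept.RamifiedOverSections

open MvPolynomial SC Pool.Agent.H27.LV Pool.Agent.H30.AV Pool.Agent.H30.AX

theorem result (k : Type) [Field k] [IsAlgClosed k] [CharZero k] (m n r e q : ℕ)
    -- the projective variety `Y`
    (Q : Set (MvPolynomial (Fin (n + 1)) k)) (hm : 2 ≤ m) (hr : 1 ≤ r) (he : 1 ≤ e)
    (hQ : ∀ g ∈ Q, ∃ d, g.IsHomogeneous d) (hdim : DimLE Q (r + 1))
    (hq : 2 * m ^ 2 * ((2 * r - 1) * (2 * r - 2) + 1) ≤ (m - 1) ^ 2 * (q - 2 * r)) :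
    ∃ Δ : MvPolynomial (Fin q × Mon (n + 1) e) k, Δ ≠ 0 ∧
      -- general forms of degree `e`
      ∀ a : Fin q → Mon (n + 1) e → k, eval (fun p => a p.1 p.2) Δ ≠ 0 →
      -- the affine variety `X` and the morphism `φ`
      ∀ (σ : Type) [Fintype σ] (P : Ideal (MvPolynomial σ k))
        (φ : Fin (n + 1) → MvPolynomial σ k), P.IsPrime →
        (∀ g ∈ Q, aeval φ g ∈ P) → GenFinite P φ →
        (∀ i, aeval φ (frm (a i)) ∉ P ∧ PullDiv m e P φ (aeval φ (frm (a i)))) →
        ∃ (h : MvPolynomial σ k) (B : ℕ), h ∉ P ∧
          DegreeBound k (P : Set (MvPolynomial σ k)) h (fun χ => B * χ) :=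
  tFI4 k m n r e q Q hm hr he hQ hdim hq

end Pool.Agent.H30.Kept.RamifiedOverSections
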