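import Pool.Agent.H17.CI.All

set_option autoImplicit false

/-!
# The Lang-Vojta question for very general affine complete intersections minus hypersurfaces

Let `f i` (`i` in a finite set `ι`) be polynomials of degrees `e i + 1` in `n` variables, all
coefficients of all of them (`c`) algebraically independent over the rational numbers
(`f i = deh (frmT c i)`: the form `frmT c i` in `n + 1` variables with `X 0 = 1`). Let `Z` be a
subset of `ι` with less than `n` elements and `2 ∑ (e i + 1) + card Z ≥ 3 n`, and let `X` be the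
variety given in affine `n`-space by `f i = 0` for `i` in `Z` and `f i ≠ 0` for the other `i`; it
is closed in affine space by the functions `u i = 1 / f i` (equations `eqsC Z c`). Then Q1 holds
for `X` with a linear function `β`, which depends on `n`, `e` and `Z` only. The exceptional set is
swept out by the lines contained in `f i = 0`, `i` in `Z`, on which the product of the other `f i`
has at most one zero; it is contained in a proper closed subset `Ψ = 0` of `X`.
-/

namespace Pool.Agent.Results.MP_70ba79_ag.VeryGeneralAffine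

open MvPolynomial SC Pool.Agent.H27.LV Pool.Agent.H17.VG Pool.Agent.H17.CI

theorem result : ∀ (n : ℕ) (ι : Type) [Fintype ι] [DecidableEq ι] (e : ι → ℕ)
    (Z : Finset ι), Z.card < n →
    3 * n ≤ 2 * ∑ i, (e i + 1) + Z.card → ∃ B : ℕ, ∀ (k : Type) [Field k] [IsAlgClosed k]
    [CharZero k] (c : (Σ i, Mon (n + 1) (e i + 1)) → k), AlgebraicIndependent ℚ c →
    DegreeBoundOff k (eqsC Z c) (excC Z c) (fun χ => B * χ) ∧
    (∃ Ψ : MvPolynomial (Fin n) k,
      (∃ z : Fin n ⊕ {i // i ∉ Z} → k, (∀ g ∈ eqsC Z c, aeval z g = 0) ∧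
        eval (fun a => z (Sum.inl a)) Ψ ≠ 0) ∧
      ∀ (K : Type) [Field K] [Algebra k K] (z : Fin n ⊕ {i // i ∉ Z} → K),
        (∀ g ∈ eqsC Z c, aeval z g = 0) → excC Z c K z →
        aeval (fun a => z (Sum.inl a)) Ψ = 0) ∧
    (∀ i, deh (frmT c i) = ∑ M : Mon (n + 1) (e i + 1),
      C (c ⟨i, M⟩) * ∏ a : Fin n, X a ^ M.1 a.succ) ∧
    ∀ (K : Type) [Field K] [Algebra k K] (z : Fin n ⊕ {i // i ∉ Z} → K),
      (∀ g ∈ eqsC Z c, aeval z g = 0) ↔
      (∀ i, aeval (fun a => z (Sum.inl a)) (deh (frmT c i)) = 0 ↔ i ∈ Z) ∧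
      ∀ i : {i // i ∉ Z},
        z (Sum.inr i) = (aeval (fun a => z (Sum.inl a)) (deh (frmT c i.1)))⁻¹ := by
  classical
  intro n ι _ _ e Z hZ hne
  obtain ⟨B, hB⟩ := fic_all n ι e Z hZ hne
  refine ⟨B, ?_⟩
  intro k _ _ _ c hc
  obtain ⟨h1, h2⟩ := hB k c hc
  refine ⟨h1, h2, ?_, ?_⟩
  · intro i
    unfold deh frmT frm
    rw [map_sum]
    refine Finset.sum_congr rfl fun M _ => ?_
    rw [map_mul, aeval_C, mono, aeval_monomial, map_one, one_mul, Finsupp.prod_fintype _ _
      (fun a => pow_zero _), Fin.prod_univ_succ]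
    simp [algebraMap_eq, fs]
  · intro K _ _ z
    have h3 : ∀ i, eval (Fin.cons 1 fun a => z (Sum.inl a) : Fin (n + 1) → K)
        (upT K (frmT c) i) = aeval (fun a => z (Sum.inl a)) (deh (frmT c i)) := by
      intro i
      rw [show upT K (frmT c) i = up K (frmT c i) from rfl, ← Pool.Agent.H99.CI.aeval_deh,
        aeval_rename]
      rfl
    have h4 := Pool.Agent.H99.CI.pf_PTT k K n ι e Z c z
    simp only [h3] at h4
    exact h4

end Pool.Agent.Results.MP_70ba79_ag.VeryGeneralAffine
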