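import Pool.Agent.H17.VG.All

set_option autoImplicit false

/-!
# The Lang-Vojta question for the complement of a very general hypersurface

Let `F = frm c` be a form of degree `d = e + 1` in `n + 1` variables with coefficients `c`
algebraically independent over the rational numbers, and `2 d ≥ 3 n + 2`. Let `X` be the complement
of the hypersurface `F = 0` in projective `n`-space, embedded in affine space by the functions
`X ^ M / F`, `M` the monomials of degree `d` (equations `eqs c`). Then Q1 holds for `X` with a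
linear function `β`, which depends on `n` and `d` only. The exceptional set is swept out by the
lines which meet the hypersurface in at most two points; it is contained in a proper closed subset
`Ψ = 0` of `X`.
-/

namespace Pool.Agent.Results.MP_70ba79_ag.VeryGeneralHypersurface

open MvPolynomial SC Pool.Agent.H27.LV Pool.Agent.H17.VG

theorem result : ∀ n e : ℕ, 1 ≤ n → 3 * n ≤ 2 * e → ∃ C : ℕ, ∀ (k : Type) [Field k]
    [IsAlgClosed k] [CharZero k] (c : Mon (n + 1) (e + 1) → k), AlgebraicIndependent ℚ c →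
    DegreeBoundOff k (eqs c) (excLine c) (fun χ => C * χ) ∧
    (∃ Ψ : MvPolynomial (Mon (n + 1) (e + 1)) k,
      (∃ z : Mon (n + 1) (e + 1) → k, (∀ g ∈ eqs c, aeval z g = 0) ∧ aeval z Ψ ≠ 0) ∧
      ∀ (K : Type) [Field K] [Algebra k K] (z : Mon (n + 1) (e + 1) → K),
        excLine c K z → aeval z Ψ = 0) ∧
    ∀ (K : Type) [Field K] [Algebra k K] (z : Mon (n + 1) (e + 1) → K),
      (∀ g ∈ eqs c, aeval z g = 0) ↔ ∃ (x : Fin (n + 1) → K) (p : Fin (n + 1)), x p = 1 ∧
        eval x (up K (frm c)) ≠ 0 ∧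
        ∀ M : Mon (n + 1) (e + 1), z M = (∏ i, x i ^ M.1 i) / eval x (up K (frm c)) := by
  intro n e hn hne
  obtain ⟨C, hC⟩ := fin_all n e hn hne
  refine ⟨C, ?_⟩
  intro k _ _ _ c hc
  obtain ⟨h1, Φ, m, hΦ, hm, h2⟩ := hC k c hc
  refine ⟨h1, ?_, ?_⟩
  · have hF : frm c ≠ 0 := by
      intro h0
      have h3 : c = 0 := frm_zero h0
      exact hc.ne_zero (mz n (e + 1) (by omega) 0) (congrFun h3 _)
    obtain ⟨Ψ, hΨ, h3⟩ := psi (by omega) c hF Φ hΦ hm
    refine ⟨Ψ, hΨ, ?_⟩
    rintro K _ _ z ⟨x, y, p, hp, hxy, htwo, -, hz⟩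
    exact h3 K z x hz (h2 K x y p hp hxy htwo)
  · intro K _ _ z
    refine ⟨fun h => Pool.Agent.H66.VG.ve k K n (e + 1) c z (by omega) h, ?_⟩
    rintro ⟨x, p, -, hF, hz⟩
    exact pts c z x hF hz

end Pool.Agent.Results.MP_70ba79_ag.VeryGeneralHypersurface
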